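import Mathlib
import Pool.Agent.H34.Sq4R0
import Pool.Agent.H34.Sq4R1
import Pool.Agent.H34.Sq4R2
import Pool.Agent.H34.Sq4R3

namespace Pool.Agent.Results.MP_dfd283_nt.Counter
open Pool.Agent.H34.Sq4

/-- Q1 is false: it fails for the triple `(42, 98, 14)` at `n = 56271`. -/
theorem result : ¬ ∀ n : ℕ, ∃ x y z w : ℕ, n = x ^ 2 + y ^ 2 + z ^ 2 + w ^ 2 ∧
    IsSquare (x * y * (42 * x ^ 2 + 98 * y ^ 2 + 14 * z ^ 2)) := by
  intro h
  obtain ⟨x, y, z, w, e, hs⟩ := h 56271
  have e' : 56271 = x * x + y * y + z * z + w * w := by simpa only [pow_two] using e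
  have hs' : IsSquare (x * y * (42 * (x * x) + 98 * (y * y) + 14 * (z * z))) := by
    simpa only [pow_two] using hs
  have hx : x < 238 :=
    Nat.mul_self_lt_mul_self_iff.1 (lt_of_le_of_lt (by omega : x * x ≤ 56271) (by norm_num))
  by_cases h0 : x < 12
  · exact rows_spec _ _ t0 x y z w (by omega) (by omega) e' hs'
  by_cases h12 : x < 24
  · exact rows_spec _ _ t12 x y z w (by omega) (by omega) e' hs'
  by_cases h24 : x < 36
  · exact rows_spec _ _ t24 x y z w (by omega) (by omega) e' hs'
  by_cases h36 : x < 48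
  · exact rows_spec _ _ t36 x y z w (by omega) (by omega) e' hs'
  by_cases h48 : x < 61
  · exact rows_spec _ _ t48 x y z w (by omega) (by omega) e' hs'
  by_cases h61 : x < 74
  · exact rows_spec _ _ t61 x y z w (by omega) (by omega) e' hs'
  by_cases h74 : x < 87
  · exact rows_spec _ _ t74 x y z w (by omega) (by omega) e' hs'
  by_cases h87 : x < 100
  · exact rows_spec _ _ t87 x y z w (by omega) (by omega) e' hs'
  by_cases h100 : x < 114
  · exact rows_spec _ _ t100 x y z w (by omega) (by omega) e' hs'
  by_cases h114 : x < 128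
  · exact rows_spec _ _ t114 x y z w (by omega) (by omega) e' hs'
  by_cases h128 : x < 142
  · exact rows_spec _ _ t128 x y z w (by omega) (by omega) e' hs'
  by_cases h142 : x < 156
  · exact rows_spec _ _ t142 x y z w (by omega) (by omega) e' hs'
  by_cases h156 : x < 172
  · exact rows_spec _ _ t156 x y z w (by omega) (by omega) e' hs'
  by_cases h172 : x < 190
  · exact rows_spec _ _ t172 x y z w (by omega) (by omega) e' hs'
  by_cases h190 : x < 210
  · exact rows_spec _ _ t190 x y z w (by omega) (by omega) e' hs'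
  by_cases h210 : x < 238
  · exact rows_spec _ _ t210 x y z w (by omega) (by omega) e' hs'
  omega

end Pool.Agent.Results.MP_dfd283_nt.Counter
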